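import Pool.Graph.R_pool_sql_team_seeded_f0cf7b00.H49R2.ACA.Main

/-!
# The star ring is closed: the statements of the library with the ring exported
-/

set_option autoImplicit false

namespace Pool.Agent.H9.AC

open Pool.Agent.H49R2.ACA Pool.Agent.H49R2.ACA.T12
open Pool.Agent.Results.MP_4b1745_al.OneVariable

theorem exists_R' {L : Type} [CommRing L] [IsDomain L] [Algebra ℚ L] {δ : DerFam L}
    (s : ℕ → L) (hs : ∀ i j, δ.d i (s j) = if i = j then 1 else 0)
    (hcl : ∀ (n : ℕ) (t : DTerm L), t.ConstsIn (Low δ n) →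
      (∃ a b, Low δ n a ∧ Low δ n b ∧ t.eval δ a ≠ t.eval δ b) →
      ∃ a, Low δ n a ∧ t.eval δ a = 0) {D : Deform L} (hD : Rec δ D) :
    Nontrivial (RR hD) ∧ CharZero (RR hD) ∧
      (∀ t : GTerm (RR hD), (∃ a b, t.eval a ≠ t.eval b) → ∃ a, t.eval a = 0) ∧
      (∀ S : Finset (RR hD), ∃ z w : RR hD, (∀ s ∈ S, s * z = z * s ∧ s * w = w * s) ∧
        w * z - z * w = 1) := by
  classical
  have hD' : Rec δ D := hD
  have hcz : CharZero L := algebraRat.charZero L
  have hcz2 : CharZero (SH D) := by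
    refine ⟨fun n m h => ?_⟩
    have h1 : ((n : SH D)).coeff 0 = ((m : SH D)).coeff 0 := by rw [h]
    rw [cast_coeff, cast_coeff] at h1
    exact_mod_cast h1
  have hcz3 : CharZero (RR hD') := by
    refine ⟨fun n m h => ?_⟩
    have h1 := congrArg Subtype.val h
    rw [SubringClass.coe_natCast, SubringClass.coe_natCast] at h1
    exact_mod_cast h1
  refine ⟨?_, hcz3, ?_, ?_⟩
  · refine ⟨0, 1, fun h => ?_⟩
    have h1 : ((0 : ℕ) : RR hD') = ((1 : ℕ) : RR hD') := by
      rw [Nat.cast_zero, Nat.cast_one]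
      exact h
    exact absurd (Nat.cast_injective h1) (by norm_num)
  · intro t hne
    obtain ⟨a, b, hab⟩ := hne
    obtain ⟨N0, hN0⟩ := descend hD' t
    obtain ⟨n1, hn1⟩ := (mem_RR hD' a.1).1 a.2
    obtain ⟨n2, hn2⟩ := (mem_RR hD' b.1).1 b.2
    set N := max N0 (max n1 n2) with hN
    obtain ⟨t', ht'⟩ := hN0 N (le_max_left _ _)
    obtain ⟨a', ha'⟩ := range_mono hD' (show n1 ≤ N by omega) hn1
    obtain ⟨b', hb'⟩ := range_mono hD' (show n2 ≤ N by omega) hn2
    have key : ∀ (c' : SH (Dn hD' N)) (c : RR hD'), inc hD' N c' = c.1 →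
        inc hD' N (t'.eval c') = (t.eval c).1 := by
      intro c' c hc
      have e1 := eval_hom (inc hD' N) t' c'
      have e2 := eval_hom (RR hD').subtype t c
      rw [← e1, ht', hc]
      exact e2
    have hroot := exists_root (Dn hD' N) ?_ t' ⟨a', b', ?_⟩
    · obtain ⟨c', hc'⟩ := hroot
      have hcR : inc hD' N c' ∈ RR hD' := range_le hD' N ⟨c', rfl⟩
      refine ⟨⟨inc hD' N c', hcR⟩, ?_⟩
      apply Subtype.ext
      rw [← key c' ⟨inc hD' N c', hcR⟩ rfl, hc', map_zero]
      rfl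
    · intro φ hφ hφne
      obtain ⟨tt, htt⟩ := isD_term (dn δ N) (Dn hD' N) (Dn_rec hD' N) φ hφ
      obtain ⟨x, y, hxy⟩ := hφne
      obtain ⟨r, hr1, hr2⟩ := hcl (2 * N) (tt.map (fun x : Ln δ N => (x : L)))
        (dterm_consts N tt) ⟨x.1, y.1, x.2, y.2, by
          rw [dterm_val, dterm_val, ← htt, ← htt]
          exact fun h => hxy (Subtype.ext h)⟩
      refine ⟨⟨r, hr1⟩, ?_⟩
      rw [htt]
      apply Subtype.ext
      rw [← dterm_val]
      exact hr2
    · intro h
      apply hab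
      apply Subtype.ext
      rw [← key a' a ha', ← key b' b hb', h]
  · intro S
    have hfin : ∃ N, ∀ x ∈ S, x.1 ∈ (inc hD' N).range := by
      induction S using Finset.induction_on with
      | empty => exact ⟨0, fun x hx => absurd hx (Finset.notMem_empty x)⟩
      | insert x S _ ih =>
        obtain ⟨N, hN⟩ := ih
        obtain ⟨n, hn⟩ := (mem_RR hD' x.1).1 x.2
        refine ⟨max n N, fun y hy => ?_⟩
        rw [Finset.mem_insert] at hy
        rcases hy with rfl | hy
        · exact range_mono hD' (le_max_left _ _) hn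
        · exact range_mono hD' (le_max_right _ _) (hN y hy)
    obtain ⟨N, hN⟩ := hfin
    obtain ⟨z, w, hz, hw, hc, hwz⟩ := weyl hD' s hs N
    refine ⟨⟨z, hz⟩, ⟨w, hw⟩, ?_, ?_⟩
    · intro x hx
      obtain ⟨h1, h2⟩ := hc x.1 (hN x hx)
      exact ⟨Subtype.ext h1, Subtype.ext h2⟩
    · exact Subtype.ext hwz


theorem closed_centre {R : Type} [Ring R] [Nontrivial R]
    (hroot : ∀ t : GTerm R, (∃ a b, t.eval a ≠ t.eval b) → ∃ a, t.eval a = 0)
    (hW : ∀ S : Finset R, ∃ z w : R, (∀ s ∈ S, s * z = z * s ∧ s * w = w * s) ∧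
      w * z - z * w = 1) (P : Type) [Field P] [Algebra P R] [CharZero R]
    (hcen : ∀ c : R, (∀ d : R, c * d = d * c) → c ∈ Set.range (algebraMap P R)) :
    AlgClosedIn P R ℕ := by
  have hinv : ∀ a : R, a ≠ 0 → ∃ x, a * x = 1 := by
    intro a ha
    obtain ⟨x, hx⟩ := hroot (GTerm.add (GTerm.mul (GTerm.const a) GTerm.var) (GTerm.const (-1)))
      ⟨0, 1, by
        simp only [GTerm.eval, mul_zero, zero_add, mul_one]
        intro h
        apply ha
        have := congrArg (fun y => y + 1) h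
        simpa using this.symm⟩
    refine ⟨x, ?_⟩
    simp only [GTerm.eval] at hx
    rw [← sub_eq_add_neg, sub_eq_zero] at hx
    exact hx
  have hunit : ∀ a : R, IsUnit a ∨ a = 0 := by
    intro a
    by_cases ha : a = 0
    · exact Or.inr ha
    · left
      obtain ⟨x, hx⟩ := hinv a ha
      have hx0 : x ≠ 0 := by
        rintro rfl
        rw [mul_zero] at hx
        exact zero_ne_one hx
      obtain ⟨y, hy⟩ := hinv x hx0
      have hya : y = a := by
        have : a * x * y = y := by rw [hx, one_mul]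
        rw [mul_assoc, hy, mul_one] at this
        exact this.symm
      rw [hya] at hy
      exact ⟨⟨a, x, hx, hy⟩, rfl⟩
  let hdiv : DivisionRing R := DivisionRing.ofIsUnitOrEqZero hunit
  refine algClosedIn_of _ _ ?_
  intro E _ _ j x hgen ev hev1 hev2 f hf
  have hnc : ∃ r r', ev r f ≠ ev r' f := by
    by_contra hcon
    push Not at hcon
    refine hf (gpi (P := P) ?_ hW j x hgen ev hev1 hev2 f hcon)
    exact fun a ha => hcen a ha
  obtain ⟨r, r', hrr⟩ := hnc
  have hterm : ∀ g : E, ∃ t : GTerm R, ∀ s : R,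
      t.eval s = ev (fun i => r i + s * (r' i - r i)) g := by
    intro g
    have hg : g ∈ Algebra.adjoin P (Set.range j ∪ Set.range x) := by
      rw [hgen]; exact Algebra.mem_top
    induction hg using Algebra.adjoin_induction with
    | mem y hy =>
      rcases hy with ⟨a, rfl⟩ | ⟨i, rfl⟩
      · exact ⟨GTerm.const a, fun s => by rw [hev1]; rfl⟩
      · exact ⟨GTerm.add (GTerm.const (r i)) (GTerm.mul GTerm.var (GTerm.const (r' i - r i))),
          fun s => by rw [hev2]; rfl⟩
    | algebraMap p =>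
      exact ⟨GTerm.const (algebraMap P R p), fun s => by
        rw [AlgHom.commutes]; rfl⟩
    | add y z _ _ hy hz =>
      obtain ⟨t1, h1⟩ := hy
      obtain ⟨t2, h2⟩ := hz
      exact ⟨GTerm.add t1 t2, fun s => by rw [map_add, ← h1, ← h2]; rfl⟩
    | mul y z _ _ hy hz =>
      obtain ⟨t1, h1⟩ := hy
      obtain ⟨t2, h2⟩ := hz
      exact ⟨GTerm.mul t1 t2, fun s => by rw [map_mul, ← h1, ← h2]; rfl⟩
  obtain ⟨t, ht⟩ := hterm f
  obtain ⟨s, hs⟩ := hroot t ⟨0, 1, by
    rw [ht, ht]
    have e0 : (fun i => r i + 0 * (r' i - r i)) = r := by funext i; simp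
    have e1 : (fun i => r i + 1 * (r' i - r i)) = r' := by funext i; simp
    rw [e0, e1]
    exact hrr⟩
  exact ⟨_, by rw [← ht]; exact hs⟩


end Pool.Agent.H9.AC
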