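import Pool.Graph.R_pool_sql_team_seeded_ab47071d.AC215.Main
import Pool.Graph.R_pool_sql_team_seeded_ab47071d.TH993.AC.Closed

/-!
# Algebraically closed algebras over a given differential field
-/

set_option autoImplicit false

namespace Pool.Agent.H9.AC

open Pool.Agent.AC215 Pool.Agent.TH993.AC MvPolynomial
open Pool.Agent.Results.MP_4b1745_al.OneVariable

/-- every field with two commuting derivations embeds in a closed one -/
theorem closed_over (F0 : DF) : ∃ (U : Type) (_ : Field U) (_ : DD U) (φ : F0.K →+* U),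
    DClosed U ∧ IsD φ := by
  choose nx ψ hψ hz using step
  let φ : ∀ n, (twr nx F0 n).K →+* (twr nx F0 (n + 1)).K := fun n => ψ (twr nx F0 n)
  have hφ : ∀ n, IsD (φ n) := fun n => hψ (twr nx F0 n)
  have hzz : ∀ n, ∀ G : MvPolynomial V (twr nx F0 n).K, (∀ c, G ≠ C c) →
    ∃ e, evd (φ n) (fun _ => e) G = 0 := fun n => hz (twr nx F0 n)
  let _ : DD (Lim (twr nx F0) φ) := limDD hφ
  exact ⟨Lim (twr nx F0) φ, inferInstance, inferInstance, io (twr nx F0) φ 0, lim_closed hφ hzz,
    io_isD hφ 0⟩

section base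

variable (K : Type) [Field K] [DD K]

/-- polynomials in two coordinates over a field with two derivations -/
@[instance_reducible] noncomputable def polyDD : DD (MvPolynomial (Fin 2) K) where
  q := C.comp DD.q
  d1 := mvDer d1 (fun i => if i = 0 then 1 else 0)
  d2 := mvDer d2 (fun i => if i = 1 then 1 else 0)
  comm := fun p => by
    rw [← sub_eq_zero]
    refine mv_der_eq_zero (RingHom.id _) (fun p =>
      mvDer d1 (fun i => if i = 0 then 1 else 0)
        (mvDer d2 (fun i : Fin 2 => if i = 1 then 1 else 0) p) -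
      mvDer d2 (fun i => if i = 1 then 1 else 0)
        (mvDer d1 (fun i : Fin 2 => if i = 0 then 1 else 0) p)) ?_ ?_ ?_ ?_ p
    · intro a b; simp; ring
    · intro a b; simp [Der.leib]; ring
    · intro a; simp only [mvDer_C, dcomm, sub_self]
    · intro i
      simp only [mvDer_X]
      split_ifs <;> simp

/-- every field with two commuting derivations embeds in a closed one with coordinates -/
theorem closed_base : ∃ (U : Type) (_ : Field U) (_ : DD U) (φ : K →+* U),
    DClosed U ∧ IsD φ ∧ ∃ t1 t2 : U, (d1 : Der U) t1 = 1 ∧ (d2 : Der U) t1 = 0 ∧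
      (d1 : Der U) t2 = 0 ∧ (d2 : Der U) t2 = 1 := by
  let _ := polyDD K
  let L := FractionRing (MvPolynomial (Fin 2) K)
  let _ : DD L := fracDD (B := MvPolynomial (Fin 2) K) L
  have hD : IsD (algebraMap (MvPolynomial (Fin 2) K) L) := isD_frac (B := MvPolynomial (Fin 2) K) L
  have hC : IsD (C : K →+* MvPolynomial (Fin 2) K) :=
    ⟨fun a => (mvDer_C _ _ a).symm, fun a => (mvDer_C _ _ a).symm⟩
  have e1 : ∀ i, (d1 : Der (MvPolynomial (Fin 2) K)) (X i) = if i = 0 then 1 else 0 :=
    fun i => mvDer_X _ _ _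
  have e2 : ∀ i, (d2 : Der (MvPolynomial (Fin 2) K)) (X i) = if i = 1 then 1 else 0 :=
    fun i => mvDer_X _ _ _
  obtain ⟨U, hU, hU', ψ, hcl, hψ⟩ := closed_over ⟨L⟩
  have hψL : IsD (ψ.comp (algebraMap (MvPolynomial (Fin 2) K) L)) := hψ.comp hD
  refine ⟨U, hU, hU', (ψ.comp (algebraMap (MvPolynomial (Fin 2) K) L)).comp C, hcl, hψL.comp hC,
    ψ.comp (algebraMap (MvPolynomial (Fin 2) K) L) (X 0),
    ψ.comp (algebraMap (MvPolynomial (Fin 2) K) L) (X 1), ?_, ?_, ?_, ?_⟩
  · exact (hψL.h1 _).symm.trans (by rw [e1, if_pos rfl, map_one])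
  · exact (hψL.h2 _).symm.trans (by rw [e2, if_neg (by decide), map_zero])
  · exact (hψL.h1 _).symm.trans (by rw [e1, if_neg (by decide), map_zero])
  · exact (hψL.h2 _).symm.trans (by rw [e2, if_pos rfl, map_one])

end base

/-- every field of series with the star product embeds in an algebraically closed algebra -/
theorem star_emb (K : Type) [Field K] [DD K] : ∃ (P R : Type) (_ : Field P) (_ : Ring R)
    (_ : Algebra P R) (_ : Nontrivial R) (f : SR K →+* R), AlgClosedIn P R ℕ ∧
      Function.Injective f ∧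
      ∀ x : SR K, (∀ q, (d1 : Der K) (x.co q) = 0 ∧ (d2 : Der K) (x.co q) = 0) →
        f x ∈ Set.range (algebraMap P R) := by
  obtain ⟨U, _, _, φ, hcl, hφ, ht⟩ := closed_base K
  refine ⟨PF U, SR U, inferInstance, inferInstance, inferInstance, inferInstance, SR.map φ hφ,
    closed_all U hcl ht, ?_, ?_⟩
  · intro x y hxy
    apply SR.ext'
    intro q
    have h := congrArg (fun z => SR.co z q) hxy
    simp only [SR.map_co] at h
    exact φ.injective h
  · intro x hx
    have hm : ∀ q, (d1 : Der U) (φ (x.co q)) = 0 ∧ (d2 : Der U) (φ (x.co q)) = 0 := by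
      intro q
      rw [← hφ.h1, ← hφ.h2, (hx q).1, (hx q).2, map_zero]
      exact ⟨rfl, rfl⟩
    refine ⟨⟨fun q => ⟨φ (x.co q), hm q⟩, ?_⟩, ?_⟩
    · refine (HahnSeries.isPWO_support (x : HahnSeries ℚ K)).mono ?_
      intro q hq h0
      apply hq
      apply Subtype.ext
      change φ ((x : HahnSeries ℚ K).coeff q) = 0
      rw [h0, map_zero]
    · apply SR.ext'
      intro q
      rfl

/-- a derivation as `Der` -/
def toDer {K : Type} [Field K] (δ : Derivation ℤ K K) : Der K where
  toFun := δ
  add' := fun a b => map_add δ a b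
  leib' := fun a b => by rw [Derivation.leibniz]; simp [smul_eq_mul]

/-- the derivations `0` and `δ` -/
@[instance_reducible] noncomputable def oreDD {K : Type} [Field K] [CharZero K]
    (δ : Derivation ℤ K K) : DD K where
  q := algebraMap ℚ K
  d1 := zDer K
  d2 := toDer δ
  comm := fun a => by
    have h1 : ∀ x : K, (zDer K) x = 0 := fun _ => rfl
    rw [h1, h1, map_zero]

section ore

variable {U : Type} [Field U] [DD U]

theorem mul_one_d {g g' : ℚ} {a b : U} (h1 : (d1 : Der U) a = 1) :
    sg g a * sg g' b = sg (g + g') (a * b) + sg (g + g' + 1) ((d2 : Der U) b) := by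
  have hs : ∀ (D : Der U) (q : ℚ) (c : U), hD D (HahnSeries.single q c) =
      HahnSeries.single q (D c) := by
    intro D q c
    ext r
    rw [hD_coeff, HahnSeries.coeff_single, HahnSeries.coeff_single]
    split_ifs
    · rfl
    · exact map_zero D
  have hz : ∀ n, 2 ≤ n → tm n (HahnSeries.single g a : HahnSeries ℚ U)
      (HahnSeries.single g' b) = 0 := by
    intro n hn
    obtain ⟨k, rfl⟩ := Nat.exists_eq_add_of_le hn
    have e : (hD (d1 : Der U))^[2 + k] (HahnSeries.single g a) = 0 := by
      rw [add_comm, Function.iterate_add_apply, Function.iterate_succ_apply,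
        Function.iterate_succ_apply, hs, h1, hs, Der.one]
      simp [iter_zero]
    rw [tm]
    show HahnSeries.single _ _ * ((hD (d1 : Der U))^[2 + k] (HahnSeries.single g a) * _) = 0
    rw [e, zero_mul, mul_zero]
  have h2 : star (HahnSeries.single g a : HahnSeries ℚ U) (HahnSeries.single g' b) =
      HahnSeries.single (g + g') (a * b) + HahnSeries.single (g + g' + 1) ((d2 : Der U) b) := by
    rw [star_eq_PN 2 hz, PN, Finset.sum_range_succ, Finset.sum_range_one, tm, tm]
    simp only [Function.iterate_zero, id_eq, Function.iterate_one]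
    rw [hs, hs, h1, HahnSeries.single_mul_single, HahnSeries.single_mul_single,
      HahnSeries.single_mul_single, HahnSeries.single_mul_single]
    have f0 : fi U 0 = 1 := by simp [fi]
    have f1 : fi U 1 = 1 := by simp [fi]
    rw [f0, f1, one_mul, one_mul, one_mul]
    congr 2
    · simp
    · push_cast
      ring
  exact h2

theorem sg_mul_of_d1 {g g' : ℚ} {a b : U} (h1 : (d1 : Der U) a = 0) :
    sg g a * sg g' b = sg (g + g') (a * b) := by
  apply SR.ext'
  intro q
  rw [sg_mul_co _ h1, sg_co, sg_co]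
  by_cases h : q = g + g'
  · rw [if_pos h, if_pos (by linarith)]
  · rw [if_neg h, if_neg (fun h' => h (by linarith)), mul_zero]

theorem sg_pow {t : U} (h2 : (d2 : Der U) t = 0) (g : ℚ) (n : ℕ) :
    (sg g t : SR U) ^ n = sg (n * g) (t ^ n) := by
  induction n with
  | zero => rw [pow_zero, pow_zero, Nat.cast_zero, zero_mul, one_eq]
  | succ n ih =>
    rw [pow_succ, ih, sg_mul_sg h2, pow_succ]
    congr 1
    push_cast
    ring

end ore

/-- **Ore extensions in algebraically closed algebras.** -/
theorem ore (K : Type) [Field K] [CharZero K] (δ : Derivation ℤ K K) :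
    ∃ (P R : Type) (_ : Field P) (_ : Ring R) (_ : Algebra P R) (_ : Nontrivial R) (f : K →+* R)
      (D : R), AlgClosedIn P R ℕ ∧ (∀ a, D * f a - f a * D = f (δ a)) ∧
        (∀ p : ℕ →₀ K, (p.sum fun i a => f a * D ^ i) = 0 → p = 0) ∧
        ∀ a, δ a = 0 → f a ∈ Set.range (algebraMap P R) := by
  let _ := oreDD δ
  obtain ⟨U, _, _, φ, hcl, hφ, ht⟩ := closed_base K
  have hcl' := closed_all U hcl ht
  obtain ⟨t1, t2, h11, h21, -, -⟩ := ht
  have p1 : ∀ a : K, (d1 : Der U) (φ a) = 0 := fun a => by
    rw [← hφ.h1]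
    exact map_zero φ
  have p2 : ∀ a : K, (d2 : Der U) (φ a) = φ (δ a) := fun a => (hφ.h2 a).symm
  have ht0 : t1 ≠ 0 := by
    rintro rfl
    rw [map_zero] at h11
    exact zero_ne_one h11
  let f : K →+* SR U :=
    { toFun := fun a => sg 0 (φ a)
      map_one' := by rw [map_one, one_eq]
      map_mul' := fun a b => by rw [sg_mul_of_d1 (p1 a), add_zero, map_mul]
      map_zero' := by rw [map_zero, sg_zero]
      map_add' := fun a b => by rw [map_add, sg_add] }
  have hf : ∀ a, f a = sg 0 (φ a) := fun _ => rfl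
  refine ⟨PF U, SR U, inferInstance, inferInstance, inferInstance, inferInstance, f, sg (-1) t1,
    hcl', ?_, ?_, ?_⟩
  · intro a
    rw [hf, hf, sg_mul_of_d1 (p1 a), mul_one_d h11, p2]
    rw [show (-1 : ℚ) + 0 = 0 + -1 by ring, mul_comm t1, add_sub_cancel_left]
    congr 1
    ring
  · intro p hp
    ext n
    have h := congrArg (fun z => SR.co z (n * (-1) : ℚ)) hp
    simp only [Finsupp.sum, SR.co_sum, SR.co_zero] at h
    have e : ∀ i : ℕ, (f (p i) * (sg (-1) t1 : SR U) ^ i).co (n * (-1) : ℚ) =
        if n = i then φ (p i) * t1 ^ i else 0 := by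
      intro i
      rw [hf, sg_pow h21, sg_mul_of_d1 (p1 _), sg_co]
      by_cases hni : n = i
      · subst hni
        rw [if_pos rfl, if_pos (by ring)]
      · rw [if_neg hni, if_neg]
        intro h'
        apply hni
        have : (n : ℚ) = i := by linarith
        exact_mod_cast this
    rw [Finset.sum_congr rfl fun i _ => e i] at h
    rw [Finset.sum_ite_eq] at h
    rw [Finsupp.coe_zero, Pi.zero_apply]
    by_contra hn
    rw [if_pos (Finsupp.mem_support_iff.2 hn)] at h
    rcases mul_eq_zero.1 h with h | h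
    · exact hn ((map_eq_zero φ).1 h)
    · exact ht0 (eq_zero_of_pow_eq_zero h)
  · intro a ha
    refine ⟨HahnSeries.single 0 (⟨φ a, p1 a, by rw [p2, ha, map_zero]⟩ : constF U), ?_⟩
    apply SR.ext'
    intro q
    rw [hf, sg_co]
    show ((HahnSeries.single 0 (⟨φ a, p1 a, by rw [p2, ha, map_zero]⟩ : constF U)).coeff q : U) = _
    rw [HahnSeries.coeff_single]
    split_ifs
    · rfl
    · rfl

end Pool.Agent.H9.AC
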