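import Pool.Graph.R_pool_sql_team_seeded_f0cf7b00.H49R2.ACA.Main

/-!
# Differential operators in the star ring
-/

set_option autoImplicit false
set_option linter.unusedSectionVars false

namespace Pool.Agent.H9.AC

open Pool.Agent.H49R2.ACA Pool.Agent.H49R2.ACA.T12 Finset

section

variable {L : Type} [CommRing L] [Algebra ℚ L] {δ : DerFam L} {D : Deform L}

/-- the product of two monomials with at most two terms -/
theorem single_mul {q r : ℚ} {a b c : L} {m : ℕ}
    (h : ∀ n, D.B (n + 1) a b = if n = m then c else 0) :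
    (SH.single q a * SH.single r b : SH D) =
      SH.single (q + r) (a * b) + SH.single (q + r + (m + 1)) c := by
  ext e
  rw [SH.coeff_single_mul_single, SH.coeff_add, SH.coeff_single, SH.coeff_single]
  have hsub : (Function.support fun n : ℕ => if q + r + (n : ℚ) = e then D.B n a b else 0) ⊆
      (({0, m + 1} : Finset ℕ) : Set ℕ) := by
    intro n hn
    rw [Function.mem_support] at hn
    rcases n with _ | n
    · simp
    · have h1 : D.B (n + 1) a b ≠ 0 := by
        intro h0
        apply hn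
        rw [h0, ite_self]
      rw [h] at h1
      have h2 : n = m := by
        by_contra h3
        rw [if_neg h3] at h1
        exact h1 rfl
      simp [h2]
  rw [finsum_eq_sum_of_support_subset _ hsub, Finset.sum_pair (by omega), D.B_zero, h, if_pos rfl]
  push_cast
  rw [add_zero]
  congr 1
  · by_cases he : e = q + r
    · rw [if_pos he, if_pos he.symm]
    · rw [if_neg he, if_neg (fun h' => he h'.symm)]
  · by_cases he : e = q + r + (m + 1)
    · rw [if_pos he, if_pos he.symm]
    · rw [if_neg he, if_neg (fun h' => he h'.symm)]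

/-- the product of two monomials with one term -/
theorem single_mul0 {q r : ℚ} {a b : L} (h : ∀ n, D.B (n + 1) a b = 0) :
    (SH.single q a * SH.single r b : SH D) = SH.single (q + r) (a * b) := by
  rw [single_mul (c := 0) (m := 0) (fun n => by rw [h, ite_self])]
  ext e
  rw [SH.coeff_add, SH.coeff_single, SH.coeff_single, ite_self, add_zero]

/-- the higher terms of the product with a coordinate -/
theorem B_coord (hD : Rec δ D) {t : L} {i : ℕ}
    (ht : ∀ k, δ.d (2 * k) t = if k = i then 1 else 0) (n : ℕ) (b : L) :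
    D.B (n + 1) t b = if n = i then δ.d (2 * i + 1) b else 0 := by
  apply cancel n
  rw [hD]
  by_cases hi : i ∈ range (n + 1)
  · rw [Finset.sum_eq_single_of_mem i hi]
    · rw [ht, if_pos rfl]
      rw [mem_range] at hi
      by_cases hn : n = i
      · subst hn
        rw [if_pos rfl, Nat.sub_self, D.B_zero, one_mul]
      · rw [if_neg hn]
        obtain ⟨k, hk⟩ : ∃ k, n - i = k + 1 := ⟨n - i - 1, by omega⟩
        rw [hk, D.B_one_left, smul_zero, smul_zero]
    · intro k _ hk
      rw [ht, if_neg hk, map_zero, AddMonoidHom.zero_apply, smul_zero]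
  · rw [mem_range] at hi
    rw [if_neg (by omega), smul_zero]
    refine Finset.sum_eq_zero fun k hk => ?_
    rw [mem_range] at hk
    rw [ht, if_neg (by omega), map_zero, AddMonoidHom.zero_apply, smul_zero]

theorem single_add' (q : ℚ) (a b : L) :
    (SH.single q (a + b) : SH D) = SH.single q a + SH.single q b := by
  ext e
  rw [SH.coeff_add, SH.coeff_single, SH.coeff_single, SH.coeff_single]
  split_ifs
  · rfl
  · rw [add_zero]

theorem single_zero' (q : ℚ) : (SH.single q 0 : SH D) = 0 := by
  ext e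
  rw [SH.coeff_single, ite_self, SH.coeff_zero]

theorem single_mem (hD : Rec δ D) (q : ℚ) {a : L} {n : ℕ} (h : Low δ (2 * n) a) :
    (SH.single q a : SH D) ∈ RR hD := by
  refine range_le hD n ?_
  rw [T12.mem_range]
  intro e i hi
  rw [SH.coeff_single]
  split_ifs
  · exact h i hi
  · exact map_zero _

variable {K : Type} [Field K] (φ : K →+* L) (del : ℕ → Derivation ℤ K K)

/-- the embedding of the field -/
noncomputable def fS (D : Deform L) (h0 : ∀ (n : ℕ) (a b : K), D.B (n + 1) (φ a) (φ b) = 0) :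
    K →+* SH D where
  toFun a := SH.single 0 (φ a)
  map_one' := by rw [map_one, SH.one_def]
  map_mul' a b := by rw [single_mul0 (fun n => h0 n a b), add_zero, map_mul]
  map_zero' := by rw [map_zero, single_zero']
  map_add' a b := by rw [map_add, single_add']

/-- the weight of a monomial -/
def wt (α : ℕ →₀ ℕ) : ℚ := α.sum fun i k => (k : ℚ) * (i + 1)

theorem wt_add (α : ℕ →₀ ℕ) (i : ℕ) : wt (α + Finsupp.single i 1) = wt α + (i + 1) := by
  unfold wt
  rw [Finsupp.sum_add_index' (fun j => by simp) (fun j a b => by push_cast; ring)]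
  congr 1
  rw [Finsupp.sum_single_index (by simp)]
  simp

/-- the product of coordinates -/
def mon (s : ℕ → L) (α : ℕ →₀ ℕ) : L := α.prod fun i k => s i ^ k

theorem mon_add (s : ℕ → L) (α : ℕ →₀ ℕ) (i : ℕ) :
    mon s (α + Finsupp.single i 1) = mon s α * s i := by
  unfold mon
  rw [Finsupp.prod_add_index' (fun j => by simp) (fun j a b => pow_add _ _ _)]
  congr 1
  rw [Finsupp.prod_single_index (by simp), pow_one]

theorem d_mul_zero (k : ℕ) {a b : L} (ha : δ.d k a = 0) (hb : δ.d k b = 0) :
    δ.d k (a * b) = 0 := by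
  rw [δ.leib, ha, hb, zero_mul, mul_zero, add_zero]

theorem d_mon (s : ℕ → L) (k : ℕ) (h : ∀ i, δ.d k (s i) = 0) (α : ℕ →₀ ℕ) :
    δ.d k (mon s α) = 0 := by
  have h1 : ∀ (i n : ℕ), δ.d k (s i ^ n) = 0 := by
    intro i n
    induction n with
    | zero => rw [pow_zero, d_one]
    | succ n ih => rw [pow_succ]; exact d_mul_zero k ih (h i)
  unfold mon Finsupp.prod
  refine Finset.prod_induction _ (fun x => δ.d k x = 0) (fun a b => d_mul_zero k) (d_one δ k) ?_
  intro i _
  exact h1 i _

theorem low_mon (s : ℕ → L) (h : ∀ k i, δ.d k (s i) = if k = 2 * i then 1 else 0)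
    (α : ℕ →₀ ℕ) : ∃ n, Low δ (2 * n) (mon s α) := by
  obtain ⟨N, hN⟩ : ∃ N, ∀ i ∈ α.support, i < N := by
    refine ⟨α.support.sup id + 1, fun i hi => ?_⟩
    have := Finset.le_sup (f := id) hi
    simp only [id_eq] at this
    omega
  refine ⟨N, fun k hk => ?_⟩
  have h1 : ∀ i < N, ∀ n : ℕ, δ.d k (s i ^ n) = 0 := by
    intro i hi n
    induction n with
    | zero => rw [pow_zero, d_one]
    | succ n ih =>
      rw [pow_succ]
      exact d_mul_zero k ih (by rw [h, if_neg (by omega)])
  unfold mon Finsupp.prod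
  refine Finset.prod_induction _ (fun x => δ.d k x = 0) (fun a b => d_mul_zero k) (d_one δ k) ?_
  intro i hi
  exact h1 i (hN i hi) _

/-- **Differential operators in the star ring.** -/
theorem emb_RR (hD : Rec δ D) [IsDomain L] [CharZero K]
    (hδ : ∀ k a, δ.d (2 * k) (φ a) = 0) (hδ1 : ∀ k a, δ.d (2 * k + 1) (φ a) = φ (del k a))
    (hlf : ∀ a, ∃ N, ∀ k, N ≤ k → del k a = 0)
    (s : ℕ → L) (hs : ∀ k i, δ.d k (s i) = if k = 2 * i then 1 else 0)
    (hind : ∀ p : (ℕ →₀ ℕ) →₀ K, (p.sum fun α a => φ a * mon s α) = 0 → p = 0) :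
    ∃ (f : K →+* RR hD) (E : ℕ → RR hD) (M : (ℕ →₀ ℕ) → RR hD),
      (∀ k a, E k * f a - f a * E k = f (del k a)) ∧ (∀ k l, E k * E l = E l * E k) ∧
      M 0 = 1 ∧ (∀ α k, M (α + Finsupp.single k 1) = M α * E k) ∧
      (∀ p : (ℕ →₀ ℕ) →₀ K, (p.sum fun α a => f a * M α) = 0 → p = 0) ∧
      ∀ a, (∀ k, del k a = 0) → ∀ x : RR hD, f a * x = x * f a := by
  have hB0 : ∀ (a : K) (b : L) (n : ℕ), D.B (n + 1) (φ a) b = 0 := fun a b n =>
    B_succ_zero hD _ _ (fun k => Or.inl (hδ k a)) n
  have hlow : ∀ a, ∃ n, Low δ (2 * n) (φ a) := by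
    intro a
    obtain ⟨N, hN⟩ := hlf a
    refine ⟨N, fun k hk => ?_⟩
    obtain ⟨l, hl | hl⟩ := Nat.even_or_odd' k
    · rw [hl]; exact hδ l a
    · rw [hl, hδ1, hN l (by omega), map_zero]
  have hmonlow := low_mon s hs
  have hodd : ∀ k i, δ.d (2 * k + 1) (s i) = 0 := fun k i => by rw [hs, if_neg (by omega)]
  have hsl : ∀ i, Low δ (2 * (i + 1)) (s i) := fun i k hk => by rw [hs, if_neg (by omega)]
  let F : K →+* SH D := fS φ D (fun n a b => hB0 a (φ b) n)
  have hF : ∀ a, F a = SH.single 0 (φ a) := fun _ => rfl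
  have hFm : ∀ a, F a ∈ RR hD := fun a => by
    obtain ⟨n, hn⟩ := hlow a
    exact single_mem hD 0 hn
  let f : K →+* RR hD := F.codRestrict (RR hD) hFm
  have hf : ∀ a, ((f a : RR hD) : SH D) = SH.single 0 (φ a) := fun _ => rfl
  let E : ℕ → RR hD := fun i => ⟨SH.single (-((i : ℚ) + 1)) (s i), single_mem hD _ (hsl i)⟩
  have hE : ∀ i, ((E i : RR hD) : SH D) = SH.single (-((i : ℚ) + 1)) (s i) := fun _ => rfl
  let M : (ℕ →₀ ℕ) → RR hD := fun α => ⟨SH.single (-(wt α)) (mon s α), by
    obtain ⟨n, hn⟩ := hmonlow α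
    exact single_mem hD _ hn⟩
  have hM : ∀ α, ((M α : RR hD) : SH D) = SH.single (-(wt α)) (mon s α) := fun _ => rfl
  have hsd : ∀ i k, δ.d (2 * k) (s i) = if k = i then 1 else 0 := by
    intro i k
    rw [hs]
    by_cases h : k = i
    · rw [if_pos h, if_pos (by omega)]
    · rw [if_neg h, if_neg (by omega)]
  refine ⟨f, E, M, ?_, ?_, ?_, ?_, ?_, ?_⟩
  · intro k a
    apply Subtype.ext
    rw [AddSubgroupClass.coe_sub, Subring.coe_mul, Subring.coe_mul, hE, hf, hf,
      single_mul (B_coord hD (hsd k) · (φ a)), single_mul0 (hB0 a (s k)), hδ1]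
    rw [mul_comm (s k), add_comm (-((k : ℚ) + 1)) 0, add_sub_cancel_left]
    congr 1
    ring
  · intro k l
    apply Subtype.ext
    have hz : ∀ k l n, D.B (n + 1) (s k) (s l) = 0 := fun k l n =>
      B_succ_zero hD _ _ (fun j => Or.inr (hodd j l)) n
    rw [Subring.coe_mul, Subring.coe_mul, hE, hE, single_mul0 (hz k l), single_mul0 (hz l k),
      mul_comm (s k), add_comm (-((k : ℚ) + 1))]
  · apply Subtype.ext
    rw [hM, Subring.coe_one, SH.one_def]
    simp [wt, mon]
  · intro α k
    apply Subtype.ext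
    have hz : ∀ n, D.B (n + 1) (mon s α) (s k) = 0 := fun n =>
      B_succ_zero hD _ _ (fun j => Or.inr (hodd j k)) n
    rw [Subring.coe_mul, hM, hM, hE, single_mul0 hz, mon_add, wt_add]
    congr 1
    ring
  · intro p hp
    apply hind
    have h1 : (((p.sum fun α a => f a * M α : RR hD)) : SH D) =
        p.sum fun α a => (SH.single (-(wt α)) (φ a * mon s α) : SH D) := by
      unfold Finsupp.sum
      rw [AddSubmonoidClass.coe_finsetSum]
      refine Finset.sum_congr rfl fun α _ => ?_
      rw [Subring.coe_mul, hf, hM, single_mul0 (hB0 _ _), zero_add]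
    rw [hp] at h1
    have h2 : ∀ e : ℚ, ∑ α ∈ p.support, (if e = -(wt α) then φ (p α) * mon s α else 0) = 0 := by
      intro e
      have h3 := congrArg (fun x => SH.coeff x e) h1
      have h4 : SH.coeff (p.sum fun α a => (SH.single (-(wt α)) (φ a * mon s α) : SH D)) e =
          ∑ α ∈ p.support, (if e = -(wt α) then φ (p α) * mon s α else 0) := by
        unfold Finsupp.sum
        have h5 : ∀ (S : Finset (ℕ →₀ ℕ)) (g : (ℕ →₀ ℕ) → SH D),
            SH.coeff (∑ α ∈ S, g α) e = ∑ α ∈ S, SH.coeff (g α) e := by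
          intro S g
          classical
          induction S using Finset.induction_on with
          | empty => rw [Finset.sum_empty, Finset.sum_empty, SH.coeff_zero]
          | insert α S hα ih => rw [Finset.sum_insert hα, Finset.sum_insert hα, SH.coeff_add, ih]
        rw [h5]
        exact Finset.sum_congr rfl fun α _ => SH.coeff_single _ _ _
      exact (h3.trans h4).symm
    -- add all coefficients
    have h6 : ∑ e ∈ p.support.image (fun α => -(wt α)),
        ∑ α ∈ p.support, (if e = -(wt α) then φ (p α) * mon s α else 0) = 0 :=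
      Finset.sum_eq_zero fun e _ => h2 e
    rw [Finset.sum_comm] at h6
    rw [← h6]
    unfold Finsupp.sum
    refine Finset.sum_congr rfl fun α hα => ?_
    rw [Finset.sum_ite_eq', if_pos (Finset.mem_image_of_mem _ hα)]
  · intro a ha x
    apply Subtype.ext
    rw [Subring.coe_mul, Subring.coe_mul, hf]
    have hall : ∀ k, δ.d k (φ a) = 0 := by
      intro k
      obtain ⟨l, hl | hl⟩ := Nat.even_or_odd' k
      · rw [hl]; exact hδ l a
      · rw [hl, hδ1, ha, map_zero]
    ext e
    rw [single_mul_coeff (x : SH D) (φ a) (fun k r => B_succ_zero hD _ _ (fun j => Or.inl (hall _)) k),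
      mul_single_coeff (x : SH D) (φ a) (fun k r => B_succ_zero hD _ _ (fun j => Or.inr (hall _)) k)]
    ring

end

end Pool.Agent.H9.AC
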