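import Pool.Graph.R_pool_sql_team_seeded_f0cf7b00.H49R2.ACA.T10

/-!
# The differential closure contains its base
-/

set_option autoImplicit false

namespace Pool.Agent.H9.AC

open Pool.Agent.H49R2.ACA Pool.Agent.H49R2.ACA.T10

/-- `exists_limit` of the library with the embedding of the base -/
theorem exists_limit' {A : Type} [CommRing A] [IsDomain A] [Algebra ℚ A] (δ : DerFam A)
    (T : A →+* A) (hT : Function.Injective T) (hTd : ∀ i a, T (δ.d i a) = δ.d i (T a))
    (hstep : ∀ (n : ℕ) (t : DTerm A), t.ConstsIn (Low δ n) →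
      (∃ a b, Low δ n a ∧ Low δ n b ∧ t.eval δ a ≠ t.eval δ b) →
      ∃ a, Low δ n a ∧ (t.map T).eval δ a = 0) :
    ∃ (L : Type) (_ : CommRing L) (_ : IsDomain L) (_ : Algebra ℚ L) (δL : DerFam L)
      (j : A →+* L), Function.Injective j ∧ (∀ i a, δL.d i (j a) = j (δ.d i a)) ∧
      ∀ (n : ℕ) (t : DTerm L), t.ConstsIn (Low δL n) →
        (∃ a b, Low δL n a ∧ Low δL n b ∧ t.eval δL a ≠ t.eval δL b) →
        ∃ a, Low δL n a ∧ t.eval δL a = 0 := by
  refine ⟨LS T, inferInstance, isDomain_LS T hT, ((io T 0).comp (algebraMap ℚ A)).toAlgebra,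
    famL T δ hTd, io T 0, io_injective T hT 0, fun i a => famL_io T δ hTd i 0 a, ?_⟩
  intro n t ht ⟨a, b, ha, hb, hab⟩
  obtain ⟨k, t', rfl⟩ := exists_term T t
  obtain ⟨l, a', b', rfl, rfl⟩ := exists_io₂ T a b
  -- common stage
  have e1 : t'.map (io T k) = (t'.map (T ^ l : A →+* A)).map (io T (k + l)) := term_shift T t' k l
  have ea : io T l a' = io T (k + l) ((T ^ k : A →+* A) a') := by
    rw [io_shift T l k, add_comm l k]
  have eb : io T l b' = io T (k + l) ((T ^ k : A →+* A) b') := by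
    rw [io_shift T l k, add_comm l k]
  set m := k + l with hm
  set t'' := t'.map (T ^ l : A →+* A) with ht''
  rw [e1] at ht hab ⊢
  rw [ea, low_io T δ hTd hT] at ha
  rw [eb, low_io T δ hTd hT] at hb
  rw [ea, eb, eval_map, eval_map] at hab
  have hab' : t''.eval δ ((T ^ k : A →+* A) a') ≠ t''.eval δ ((T ^ k : A →+* A) b') :=
    fun h => hab (by rw [h])
  have ht2 : t''.ConstsIn (Low δ n) :=
    consts_map _ _ _ (fun c hc => (low_io T δ hTd hT n m c).1 hc) t'' ht
  obtain ⟨c, hc1, hc2⟩ := hstep n t'' ht2 ⟨_, _, ha, hb, hab'⟩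
  refine ⟨io T (m + 1) c, (low_io T δ hTd hT n (m + 1) c).2 hc1, ?_⟩
  have e3 : t''.map (io T m) = (t''.map T).map (io T (m + 1)) := by
    rw [map_map' (T : A → A) (io T (m + 1)) t'']
    congr 1
    funext x
    exact io_succ T m x
  rw [e3, eval_map, hc2, map_zero]

end Pool.Agent.H9.AC
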