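import Pool.Agent.H9.AC.Ls
import Pool.Agent.H9.AC.AlgC
import Pool.Agent.H9.AC.Clo
import Pool.Agent.H9.AC.Emb2
import Pool.Agent.H9.AC.Lim
import Pool.Agent.H19.AlgI
import Pool.Agent.H66.T9g
import Pool.Agent.H66.ACS
import Pool.Agent.H59.ACS

/-!
# The embedding theorem
-/

set_option autoImplicit false

namespace Pool.Agent.H9.AC

open Pool.Agent.H49R2.ACA Pool.Agent.H49R2.ACA.T12
open Pool.Agent.Results.MP_4b1745_al.OneVariable
open Pool.Agent.H66.T9g (exists_step_gen exists_W)
open Pool.Agent.H9.AC.AlgC (iso)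

/-- the derivations `0, δ_0, 0, δ_1, …` -/
noncomputable def dK {K : Type} [Field K] (del : ℕ → Derivation ℤ K K)
    (hc : ∀ i j a, del i (del j a) = del j (del i a)) : DerFam K where
  d i := if Even i then 0 else ((del (i / 2) : K →ₗ[ℤ] K) : K →+ K)
  leib i a b := by
    split_ifs
    · simp
    · show del (i / 2) (a * b) = del (i / 2) a * b + a * del (i / 2) b
      rw [Derivation.leibniz, smul_eq_mul, smul_eq_mul]
      ring
  comm i j a := by
    by_cases hi : Even i <;> by_cases hj : Even j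
    · simp [hi, hj]
    · simp [hi, hj]
    · simp [hi, hj]
    · rw [if_neg hi, if_neg hj]
      exact hc _ _ a

theorem dK_even {K : Type} [Field K] (del : ℕ → Derivation ℤ K K)
    (hc : ∀ i j a, del i (del j a) = del j (del i a)) (k : ℕ) (a : K) :
    (dK del hc).d (2 * k) a = 0 := by
  show (if Even (2 * k) then (0 : K →+ K) else _) a = 0
  rw [if_pos (even_two_mul k)]
  rfl

theorem dK_odd {K : Type} [Field K] (del : ℕ → Derivation ℤ K K)
    (hc : ∀ i j a, del i (del j a) = del j (del i a)) (k : ℕ) (a : K) :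
    (dK del hc).d (2 * k + 1) a = del k a := by
  show (if Even (2 * k + 1) then (0 : K →+ K) else
    ((del ((2 * k + 1) / 2) : K →ₗ[ℤ] K) : K →+ K)) a = del k a
  rw [if_neg (by simp), show (2 * k + 1) / 2 = k by omega]
  rfl

/-- the closure property used by the library -/
structure Cl (R : Type) [Ring R] : Prop where
  nt : Nontrivial R
  cz : CharZero R
  root : ∀ t : GTerm R, (∃ a b, t.eval a ≠ t.eval b) → ∃ a, t.eval a = 0
  wp : ∀ S : Finset R, ∃ z w : R, (∀ s ∈ S, s * z = z * s ∧ s * w = w * s) ∧ w * z - z * w = 1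

/-- differential operators in a ring -/
structure DO (K : Type) [Field K] (del : ℕ → Derivation ℤ K K) (R : Type) [Ring R]
    (f : K →+* R) (E : ℕ → R) (M : (ℕ →₀ ℕ) → R) : Prop where
  der : ∀ k a, E k * f a - f a * E k = f (del k a)
  com : ∀ k l, E k * E l = E l * E k
  one : M 0 = 1
  mul : ∀ α k, M (α + Finsupp.single k 1) = M α * E k
  ind : ∀ p : (ℕ →₀ ℕ) →₀ K, (p.sum fun α a => f a * M α) = 0 → p = 0
  cen : ∀ a, (∀ k, del k a = 0) → ∀ x : R, f a * x = x * f a

/-- **Differential operators in algebraically closed algebras.** -/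
theorem embed0 (K : Type) [Field K] [CharZero K] (del : ℕ → Derivation ℤ K K)
    (hc : ∀ i j a, del i (del j a) = del j (del i a))
    (hlf : ∀ a, ∃ N, ∀ k, N ≤ k → del k a = 0) :
    ∃ (R : Type) (_ : Ring R), Cl R ∧
      ∃ (f : K →+* R) (E : ℕ → R) (M : (ℕ →₀ ℕ) → R), DO K del R f E M := by
  obtain ⟨W, _, _, _, ε, hW⟩ := exists_W K
  obtain ⟨T0, -, hT0⟩ := exists_taylor (dK del hc) ε
  obtain ⟨T, hT, hTd, hstep⟩ := exists_step_gen W hW
  have : IsDomain (MvPowerSeries ℕ W) := NoZeroDivisors.to_isDomain _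
  obtain ⟨L, _, _, _, δL, j, hj, hjd, hcl⟩ := exists_limit' (dps W) T hT hTd hstep
  let φ : K →+* L := j.comp T0
  have hφ : ∀ i a, δL.d i (φ a) = φ ((dK del hc).d i a) := fun i a => by
    show δL.d i (j (T0 a)) = j (T0 _)
    rw [hjd, hT0]
  have h0 : ∀ k a, δL.d (2 * k) (φ a) = 0 := fun k a => by rw [hφ, dK_even, map_zero]
  have h1 : ∀ k a, δL.d (2 * k + 1) (φ a) = φ (del k a) := fun k a => by rw [hφ, dK_odd]
  let s : ℕ → L := fun i => j (MvPowerSeries.X i)
  have hs : ∀ i k, δL.d i (s k) = if i = k then 1 else 0 := by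
    intro i k
    show δL.d i (j (MvPowerSeries.X k)) = _
    rw [hjd, dps_d]
    split_ifs with h
    · subst h
      rw [MvPowerSeries.pderiv_X_self, map_one]
    · rw [MvPowerSeries.pderiv_X_of_ne (fun h' => h h'.symm), map_zero]
  obtain ⟨D, hD⟩ := exists_derDeform δL
  have hD' : Rec δL D := hD
  obtain ⟨i1, i2, hroot, hwe⟩ := exists_R' s hs hcl hD'
  have hind : ∀ p : (ℕ →₀ ℕ) →₀ K,
      (p.sum fun α a => φ a * mon (fun i => s (2 * i)) α) = 0 → p = 0 := by
    intro p hp
    refine Pool.Agent.H19.AlgI.algindep φ φ.injective (fun i => δL.d (2 * i))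
      (fun i a b => δL.leib _ a b) h0 (fun i => s (2 * i)) ?_ p hp
    intro i k
    rw [hs]
    by_cases h : i = k
    · rw [if_pos h, if_pos (by omega)]
    · rw [if_neg h, if_neg (by omega)]
  obtain ⟨f, E, M, g1, g2, g3, g4, g5, g6⟩ := emb_RR φ del hD' h0 h1 hlf
    (fun i => s (2 * i)) (fun k i => hs k (2 * i)) hind
  exact ⟨RR hD', inferInstance, ⟨i1, i2, hroot, hwe⟩, f, E, M, ⟨g1, g2, g3, g4, g5, g6⟩⟩

/-- the same with the smallest possible cardinality -/
theorem embed (K : Type) [Field K] [CharZero K] (del : ℕ → Derivation ℤ K K)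
    (hc : ∀ i j a, del i (del j a) = del j (del i a))
    (hlf : ∀ a, ∃ N, ∀ k, N ≤ k → del k a = 0) :
    ∃ (R : Type) (_ : Ring R), Cl R ∧ Cardinal.mk R = Cardinal.mk K ∧
      ∃ (f : K →+* R) (E : ℕ → R) (M : (ℕ →₀ ℕ) → R), DO K del R f E M := by
  obtain ⟨R, iR, hR, f, E, M, h⟩ := embed0 K del hc hlf
  have hinf : Cardinal.aleph0 ≤ Cardinal.mk K := Cardinal.aleph0_le_mk_iff.2 inferInstance
  have hX : Cardinal.mk (Set.range f ∪ Set.range E ∪ Set.range M : Set R) ≤ Cardinal.mk K := by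
    have h1 : Cardinal.mk (Set.range f) ≤ Cardinal.mk K := Cardinal.mk_range_le
    have h2 : Cardinal.mk (Set.range E) ≤ Cardinal.mk K := by
      refine (Cardinal.mk_range_le).trans ?_
      rw [Cardinal.mk_nat]
      exact hinf
    have h3 : Cardinal.mk (Set.range M) ≤ Cardinal.mk K := by
      refine (Cardinal.mk_range_le).trans ?_
      have : Cardinal.mk (ℕ →₀ ℕ) = Cardinal.aleph0 := Cardinal.mk_eq_aleph0 _
      rw [this]
      exact hinf
    refine (Cardinal.mk_union_le _ _).trans ?_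
    refine Cardinal.add_le_of_le hinf ?_ h3
    exact (Cardinal.mk_union_le _ _).trans (Cardinal.add_le_of_le hinf h1 h2)
  obtain ⟨S, hXS, hcard, hroot, hwe⟩ := ls hR.root hR.wp _ _ hinf hX
  have := hR.cz
  have := hR.nt
  have hf : ∀ a, f a ∈ S := fun a => hXS (Or.inl (Or.inl ⟨a, rfl⟩))
  have hE : ∀ k, E k ∈ S := fun k => hXS (Or.inl (Or.inr ⟨k, rfl⟩))
  have hM : ∀ α, M α ∈ S := fun α => hXS (Or.inr ⟨α, rfl⟩)
  have hcz : CharZero S := ⟨fun n m hnm => by
    have h1 := congrArg Subtype.val hnm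
    rw [SubringClass.coe_natCast, SubringClass.coe_natCast] at h1
    exact_mod_cast h1⟩
  let f' : K →+* S := f.codRestrict S hf
  have hnt : Nontrivial S := inferInstance
  refine ⟨S, inferInstance, ⟨hnt, hcz, hroot, hwe⟩, le_antisymm hcard
    (Cardinal.mk_le_of_injective f'.injective), f', fun k => ⟨E k, hE k⟩,
    fun α => ⟨M α, hM α⟩, ?_, ?_, ?_, ?_, ?_, ?_⟩
  · intro k a
    exact Subtype.ext (h.der k a)
  · intro k l
    exact Subtype.ext (h.com k l)
  · exact Subtype.ext h.one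
  · intro α k
    exact Subtype.ext (h.mul α k)
  · intro p hp
    apply h.ind
    have h1 := congrArg (S.subtype) hp
    rw [map_zero, Finsupp.sum, map_sum] at h1
    rw [Finsupp.sum, ← h1]
    rfl
  · intro a ha x
    exact Subtype.ext (h.cen a ha x)

theorem unit_of {R : Type} [Ring R] (h : Cl R) (a : R) : IsUnit a ∨ a = 0 := by
  have := h.nt
  have hinv : ∀ a : R, a ≠ 0 → ∃ x, a * x = 1 := by
    intro a ha
    obtain ⟨x, hx⟩ := h.root (GTerm.add (GTerm.mul (GTerm.const a) GTerm.var) (GTerm.const (-1)))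
      ⟨0, 1, by
        simp only [GTerm.eval, mul_zero, zero_add, mul_one]
        intro h
        apply ha
        have := congrArg (fun y => y + 1) h
        simpa using this.symm⟩
    refine ⟨x, ?_⟩
    simp only [GTerm.eval] at hx
    rw [← sub_eq_add_neg, sub_eq_zero] at hx
    exact hx
  by_cases ha : a = 0
  · exact Or.inr ha
  · left
    obtain ⟨x, hx⟩ := hinv a ha
    have hx0 : x ≠ 0 := by
      rintro rfl
      rw [mul_zero] at hx
      exact zero_ne_one hx
    obtain ⟨y, hy⟩ := hinv x hx0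
    have hya : y = a := by
      have : a * x * y = y := by rw [hx, one_mul]
      rw [mul_assoc, hy, mul_one] at this
      exact this.symm
    rw [hya] at hy
    exact ⟨⟨a, x, hx, hy⟩, rfl⟩

/-- the base field -/
theorem centre {R : Type} [Ring R] (h : Cl R) : ∃ (P : Type) (_ : Field P) (_ : Algebra P R),
    (∀ c : R, (∀ d : R, c * d = d * c) → c ∈ Set.range (algebraMap P R)) ∧
    AlgClosedIn P R ℕ := by
  have := h.nt
  have := h.cz
  let hdiv : DivisionRing R := DivisionRing.ofIsUnitOrEqZero (unit_of h)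
  have hc : ∀ c : R, (∀ d : R, c * d = d * c) →
      c ∈ Set.range (algebraMap (Subring.center R) R) := by
    intro c hc
    exact ⟨⟨c, Subring.mem_center_iff.mpr fun b => (hc b).symm⟩, rfl⟩
  exact ⟨Subring.center R, inferInstance, inferInstance, hc,
    closed_centre h.root h.wp (Subring.center R) hc⟩

/-- **The base fields.** -/
theorem base (P : Type) [Field P] [CharZero P] [IsAlgClosed P] (x : ℕ → P)
    (hx : AlgebraicIndependent ℚ x) : ∃ (R : Type) (_ : Ring R) (_ : Algebra P R),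
      Nontrivial R ∧ AlgClosedIn P R ℕ ∧ Cardinal.mk R = Cardinal.mk P ∧
        ∀ S : Finset R, ∃ z w : R, (∀ s ∈ S, s * z = z * s ∧ s * w = w * s) ∧
          w * z - z * w = 1 := by
  obtain ⟨R, iR, hR, hcard, f, E, M, h⟩ := embed P (fun _ => 0) (fun _ _ _ => rfl)
    (fun _ => ⟨0, fun _ _ => rfl⟩)
  have i1 := hR.nt
  have i2 := hR.cz
  have hcf : ∀ a : P, ∀ y : R, f a * y = y * f a := fun a => h.cen a (fun _ => rfl)
  obtain ⟨Q, iQ, iA, hc, hac⟩ := centre hR
  have hinj : Function.Injective (algebraMap Q R) := (algebraMap Q R).injective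
  have hQ0 : CharZero Q := (RingHom.charZero_iff hinj).2 i2
  obtain ⟨hcl, -⟩ := Pool.Agent.H66.ACS.struct2 Q R (fun a ha =>
    (Pool.Agent.H59.ACS.struct1.{0, 0, 0} Q R hac).2.2.1 a a 1 (by
      rintro ⟨r, hr, -⟩
      exact ha ⟨r, hr.symm⟩)) (Pool.Agent.H66.ACS.root2 hac)
  choose g hg using fun a : P => hc (f a) (hcf a)
  let G : P →+* Q :=
    { toFun := g
      map_one' := hinj (by rw [hg, map_one, map_one])
      map_mul' := fun a b => hinj (by rw [hg, map_mul, map_mul, hg, hg])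
      map_zero' := hinj (by rw [hg, map_zero, map_zero])
      map_add' := fun a b => hinj (by rw [hg, map_add, map_add, hg, hg]) }
  have hQc : Cardinal.mk Q ≤ Cardinal.mk P := by
    rw [← hcard]
    exact Cardinal.mk_le_of_injective hinj
  obtain ⟨e⟩ := iso P Q G hQc x hx
  let A : Algebra P R := ((algebraMap Q R).comp (e : P →+* Q)).toAlgebra'
    (fun c y => Algebra.commutes _ _)
  have hcP : ∀ c : R, (∀ d : R, c * d = d * c) → c ∈ Set.range (algebraMap P R) := by
    intro c hcc
    obtain ⟨q, hq⟩ := hc c hcc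
    refine ⟨e.symm q, ?_⟩
    show algebraMap Q R (e (e.symm q)) = c
    rw [e.apply_symm_apply, hq]
  exact ⟨R, iR, A, i1, closed_centre hR.root hR.wp P hcP, hcard, hR.wp⟩

end Pool.Agent.H9.AC
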