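import Pool.Graph.R_pool_sql_team_seeded_f0cf7b00.H49R2.ACA.Defs

/-!
# Small closed subrings
-/

set_option autoImplicit false

namespace Pool.Agent.H9.AC

open Pool.Agent.H49R2.ACA FirstOrder

/-- Polish notation -/
def code {V : Type} : GTerm V → List (V ⊕ Fin 3)
  | .const v => [Sum.inl v]
  | .var => [Sum.inr 0]
  | .add s t => Sum.inr 1 :: (code s ++ code t)
  | .mul s t => Sum.inr 2 :: (code s ++ code t)

theorem code_inj {V : Type} (s : GTerm V) : ∀ (t : GTerm V) (l l' : List (V ⊕ Fin 3)),
    code s ++ l = code t ++ l' → s = t ∧ l = l' := by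
  induction s with
  | const v =>
    intro t l l' h
    cases t <;> simp_all [code]
  | var =>
    intro t l l' h
    cases t <;> simp_all [code]
  | add s1 s2 h1 h2 =>
    intro t l l' h
    cases t with
    | const v => simp [code] at h
    | var => simp [code] at h
    | add t1 t2 =>
      simp only [code, List.cons_append, List.cons.injEq, true_and, List.append_assoc] at h
      obtain ⟨rfl, h'⟩ := h1 _ _ _ h
      obtain ⟨rfl, h''⟩ := h2 _ _ _ h'
      exact ⟨rfl, h''⟩
    | mul t1 t2 => simp [code] at h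
  | mul s1 s2 h1 h2 =>
    intro t l l' h
    cases t with
    | const v => simp [code] at h
    | var => simp [code] at h
    | add t1 t2 => simp [code] at h
    | mul t1 t2 =>
      simp only [code, List.cons_append, List.cons.injEq, true_and, List.append_assoc] at h
      obtain ⟨rfl, h'⟩ := h1 _ _ _ h
      obtain ⟨rfl, h''⟩ := h2 _ _ _ h'
      exact ⟨rfl, h''⟩

instance {V : Type} [Countable V] : Countable (GTerm V) :=
  Function.Injective.countable (f := code) fun s t h => by
    have := code_inj s t [] [] (by rw [List.append_nil, List.append_nil, h])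
    exact this.1

/-- the language with the functions under which the subring is closed -/
def Lg : FirstOrder.Language.{0, 0} := ⟨fun n => GTerm (Fin n) ⊕ (GTerm (Fin n) ⊕ Fin 3), fun _ => Empty⟩

/-- its structure on a ring -/
@[instance_reducible] noncomputable def stru {R : Type} [Ring R] (root : GTerm R → R) (z w : Finset R → R) :
    Lg.Structure R := by
  classical
  exact
  { funMap := fun {n} F v => match F with
      | Sum.inl t => root (t.map v)
      | Sum.inr (Sum.inl t) => (t.map v).eval 0
      | Sum.inr (Sum.inr i) => if i = 0 then z (Finset.univ.image v) else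
          if i = 1 then w (Finset.univ.image v) else -1
    RelMap := fun {n} e _ => Empty.elim e }

theorem map_comp {U V W : Type} (f : U → V) (g : V → W) (t : GTerm U) :
    (t.map f).map g = t.map (g ∘ f) := by
  induction t with
  | const v => rfl
  | var => rfl
  | add s t hs ht => simp only [GTerm.map]; rw [hs, ht]
  | mul s t hs ht => simp only [GTerm.map]; rw [hs, ht]

theorem exists_fin {V : Type} (t : GTerm V) : ∃ (n : ℕ) (t0 : GTerm (Fin n)) (v : Fin n → V),
    t0.map v = t := by
  induction t with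
  | const v => exact ⟨1, .const 0, fun _ => v, rfl⟩
  | var => exact ⟨0, .var, Fin.elim0, rfl⟩
  | add s t hs ht =>
    obtain ⟨n, s0, v, rfl⟩ := hs
    obtain ⟨m, t0, w, rfl⟩ := ht
    refine ⟨n + m, .add (s0.map (Fin.castAdd m)) (t0.map (Fin.natAdd n)), Fin.append v w, ?_⟩
    simp only [GTerm.map]
    rw [map_comp, map_comp]
    congr 2
    · funext i; simp
    · funext i; simp
  | mul s t hs ht =>
    obtain ⟨n, s0, v, rfl⟩ := hs
    obtain ⟨m, t0, w, rfl⟩ := ht
    refine ⟨n + m, .mul (s0.map (Fin.castAdd m)) (t0.map (Fin.natAdd n)), Fin.append v w, ?_⟩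
    simp only [GTerm.map]
    rw [map_comp, map_comp]
    congr 2
    · funext i; simp
    · funext i; simp

theorem eval_val {R : Type} [Ring R] (S : Subring R) (t : GTerm S) (a : S) :
    ((t.eval a : S) : R) = (t.map (Subtype.val : S → R)).eval (a : R) := by
  induction t with
  | const v => rfl
  | var => rfl
  | add s t hs ht =>
    show ((s.eval a + t.eval a : S) : R) = _
    rw [Subring.coe_add, hs, ht]
    rfl
  | mul s t hs ht =>
    show ((s.eval a * t.eval a : S) : R) = _
    rw [Subring.coe_mul, hs, ht]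
    rfl

theorem ls {R : Type} [Ring R]
    (hroot : ∀ t : GTerm R, (∃ a b, t.eval a ≠ t.eval b) → ∃ a, t.eval a = 0)
    (hW : ∀ S : Finset R, ∃ z w : R, (∀ s ∈ S, s * z = z * s ∧ s * w = w * s) ∧
      w * z - z * w = 1) (X : Set R) (κ : Cardinal.{0}) (hκ : Cardinal.aleph0 ≤ κ)
    (hX : Cardinal.mk X ≤ κ) :
    ∃ S : Subring R, X ⊆ S ∧ Cardinal.mk S ≤ κ ∧
      (∀ t : GTerm S, (∃ a b, t.eval a ≠ t.eval b) → ∃ a, t.eval a = 0) ∧
      (∀ T : Finset S, ∃ z w : S, (∀ s ∈ T, s * z = z * s ∧ s * w = w * s) ∧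
        w * z - z * w = 1) := by
  classical
  have hroot' : ∀ t : GTerm R, ∃ x : R, (∃ a b, t.eval a ≠ t.eval b) → t.eval x = 0 := by
    intro t
    by_cases h : ∃ a b, t.eval a ≠ t.eval b
    · obtain ⟨x, hx⟩ := hroot t h
      exact ⟨x, fun _ => hx⟩
    · exact ⟨0, fun h' => absurd h' h⟩
  choose root hr using hroot'
  choose z w hzw hzw1 using hW
  let _ : Lg.Structure R := stru root z w
  let C : Lg.Substructure R := FirstOrder.Language.Substructure.closure Lg X
  have hroot_mem : ∀ {n : ℕ} (t : GTerm (Fin n)) (v : Fin n → R), (∀ i, v i ∈ C) →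
      root (t.map v) ∈ C := fun {n} t v hv => C.fun_mem (n := n) (Sum.inl t) v hv
  have heval_mem : ∀ {n : ℕ} (t : GTerm (Fin n)) (v : Fin n → R), (∀ i, v i ∈ C) →
      (t.map v).eval 0 ∈ C := fun {n} t v hv => C.fun_mem (n := n) (Sum.inr (Sum.inl t)) v hv
  have hz_mem : ∀ {n : ℕ} (v : Fin n → R), (∀ i, v i ∈ C) →
      z (Finset.univ.image v) ∈ C := fun {n} v hv => C.fun_mem (n := n) (Sum.inr (Sum.inr 0)) v hv
  have hw_mem : ∀ {n : ℕ} (v : Fin n → R), (∀ i, v i ∈ C) →
      w (Finset.univ.image v) ∈ C := fun {n} v hv => C.fun_mem (n := n) (Sum.inr (Sum.inr 1)) v hv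
  have hneg_mem : (-1 : R) ∈ C :=
    C.fun_mem (n := 0) (Sum.inr (Sum.inr 2)) Fin.elim0 (fun i => Fin.elim0 i)
  have hadd : ∀ a b, a ∈ C → b ∈ C → a + b ∈ C := fun a b ha hb =>
    heval_mem (n := 2) (.add (.const 0) (.const 1)) ![a, b] (fun i => by
      fin_cases i
      · exact ha
      · exact hb)
  have hmul : ∀ a b, a ∈ C → b ∈ C → a * b ∈ C := fun a b ha hb =>
    heval_mem (n := 2) (.mul (.const 0) (.const 1)) ![a, b] (fun i => by
      fin_cases i
      · exact ha
      · exact hb)
  have hone : (1 : R) ∈ C := by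
    have := hmul _ _ hneg_mem hneg_mem
    rwa [neg_mul_neg, one_mul] at this
  have hzero : (0 : R) ∈ C := by
    have := hadd _ _ hneg_mem hone
    rwa [neg_add_cancel] at this
  let S : Subring R :=
    { carrier := C
      mul_mem' := fun {a b} ha hb => hmul a b ha hb
      one_mem' := hone
      add_mem' := fun {a b} ha hb => hadd a b ha hb
      zero_mem' := hzero
      neg_mem' := fun {a} ha => by
        have := hmul _ _ hneg_mem ha
        rwa [neg_one_mul] at this }
  have hSC : ∀ x, x ∈ S ↔ x ∈ C := fun _ => Iff.rfl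
  refine ⟨S, FirstOrder.Language.Substructure.subset_closure, ?_, ?_, ?_⟩
  · have h1 := FirstOrder.Language.Substructure.lift_card_closure_le (L := Lg) (s := X)
    have h2 : Cardinal.mk (Σ i, Lg.Functions i) ≤ Cardinal.aleph0 := by
      have : ∀ i, Countable (Lg.Functions i) := fun i =>
        (inferInstance : Countable (GTerm (Fin i) ⊕ (GTerm (Fin i) ⊕ Fin 3)))
      exact Cardinal.mk_le_aleph0
    rw [Cardinal.lift_id, Cardinal.lift_id, Cardinal.lift_id] at h1
    refine h1.trans (max_le hκ ?_)
    exact Cardinal.add_le_of_le hκ hX (h2.trans hκ)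
  · intro t ⟨a, b, hab⟩
    obtain ⟨n, t0, v, rfl⟩ := exists_fin t
    have hne : ((t0.map v).map (Subtype.val : S → R)).eval (a : R) ≠
        ((t0.map v).map (Subtype.val : S → R)).eval (b : R) := by
      rw [← eval_val, ← eval_val]
      exact fun h => hab (Subtype.ext h)
    have h1 := hr _ ⟨_, _, hne⟩
    have h2 : root ((t0.map v).map (Subtype.val : S → R)) ∈ C := by
      rw [map_comp]
      exact hroot_mem t0 _ (fun i => (v i).2)
    refine ⟨⟨_, h2⟩, Subtype.ext ?_⟩
    rw [eval_val]
    exact h1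
  · intro T
    obtain ⟨n, v, hv⟩ : ∃ (n : ℕ) (v : Fin n → R),
        Finset.univ.image v = T.image (Subtype.val : S → R) := by
      refine ⟨T.card, fun i => (T.equivFin.symm i : S), ?_⟩
      ext x
      simp only [Finset.mem_image, Finset.mem_univ, true_and]
      constructor
      · rintro ⟨i, rfl⟩
        exact ⟨_, (T.equivFin.symm i).2, rfl⟩
      · rintro ⟨y, hy, rfl⟩
        exact ⟨T.equivFin ⟨y, hy⟩, by rw [Equiv.symm_apply_apply]⟩
    have hvC : ∀ i, v i ∈ C := by
      intro i
      have h1 : v i ∈ T.image (Subtype.val : S → R) := by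
        rw [← hv]
        exact Finset.mem_image_of_mem v (Finset.mem_univ i)
      obtain ⟨y, -, hy⟩ := Finset.mem_image.1 h1
      rw [← hy]
      exact y.2
    refine ⟨⟨z _, hz_mem v hvC⟩, ⟨w _, hw_mem v hvC⟩, ?_, ?_⟩
    · intro s hs
      have h1 : (s : R) ∈ Finset.univ.image v := by
        rw [hv]
        exact Finset.mem_image_of_mem _ hs
      obtain ⟨h2, h3⟩ := hzw _ _ h1
      exact ⟨Subtype.ext h2, Subtype.ext h3⟩
    · exact Subtype.ext (hzw1 _)

end Pool.Agent.H9.AC
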