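import Pool.Agent.H66.ACS

/-!
# The base field is separably closed
-/

set_option autoImplicit false

namespace Pool.Agent.H9.AC

open Polynomial

universe u v

theorem struct3 (P : Type u) (R : Type v) [Field P] [Ring R] [Algebra P R] [Nontrivial R]
    (h1 : ∀ a : R, a ∉ Set.range (algebraMap P R) → ∃ x, a * x - x * a = 1)
    (h2 : ∀ p : Polynomial P, 0 < p.natDegree → ∃ a : R, Polynomial.aeval a p = 0) :
    IsSepClosed P ∧ (∀ (a : R) (p : Polynomial P), p.Separable → Polynomial.aeval a p = 0 →
      a ∈ Set.range (algebraMap P R)) := by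
  have key : ∀ (a : R) (p : Polynomial P), p.Separable → Polynomial.aeval a p = 0 →
      a ∈ Set.range (algebraMap P R) := by
    intro a p hp ha
    by_contra hn
    obtain ⟨x, hx⟩ := h1 a hn
    have hint : IsIntegral P a := IsAlgebraic.isIntegral ⟨p, hp.ne_zero, ha⟩
    have hc := Pool.Agent.H66.ACS.comm_aeval hx (minpoly P a)
    rw [minpoly.aeval, zero_mul, mul_zero, sub_zero] at hc
    have hsep : (minpoly P a).Separable := hp.of_dvd (minpoly.dvd P a ha)
    have hne : derivative (minpoly P a) ≠ 0 := by
      intro h0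
      have h3 := hsep
      rw [Polynomial.separable_def, h0, isCoprime_zero_right] at h3
      exact minpoly.not_isUnit P a h3
    have h3 := minpoly.degree_le_of_ne_zero P a hne hc.symm
    have h4 := degree_derivative_lt (minpoly.ne_zero hint)
    exact absurd h3 (not_le.2 h4)
  refine ⟨IsSepClosed.of_exists_root P fun p hm hi hs => ?_, key⟩
  obtain ⟨a, ha⟩ := h2 p hi.natDegree_pos
  obtain ⟨c, rfl⟩ := key a p hs ha
  refine ⟨c, ?_⟩
  rw [aeval_algebraMap_apply] at ha
  have hinj : Function.Injective (algebraMap P R) := (algebraMap P R).injective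
  have h5 := hinj (ha.trans (map_zero _).symm)
  rwa [coe_aeval_eq_eval] at h5

end Pool.Agent.H9.AC
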